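import Mathlib

open Matrix Finset
open scoped Classical

namespace Pool.Agent.Results.MP_6838a0_co.SpreadGap

/-- The out-degree of the vertex `i`: the number of `j` with an arc `(i, j)`. -/
noncomputable def outDegree {n : ℕ} (G : Digraph (Fin n)) (i : Fin n) : ℕ :=
  (Finset.univ.filter fun j => G.Adj i j).card

/-- The in-degree of the vertex `i`: the number of `j` with an arc `(j, i)`. -/
noncomputable def inDegree {n : ℕ} (G : Digraph (Fin n)) (i : Fin n) : ℕ :=
  (Finset.univ.filter fun j => G.Adj j i).card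

/-- `G` has no loops. -/
def Loopless {n : ℕ} (G : Digraph (Fin n)) : Prop := ∀ i, ¬ G.Adj i i

/-- `G` is balanced: every vertex has in-degree equal to out-degree. -/
def Balanced {n : ℕ} (G : Digraph (Fin n)) : Prop := ∀ i, inDegree G i = outDegree G i

/-- The Laplacian `D - A`, `A` the adjacency matrix, `D` the diagonal matrix of out-degrees. -/
noncomputable def laplacian {n : ℕ} (G : Digraph (Fin n)) : Matrix (Fin n) (Fin n) ℂ :=
  Matrix.diagonal (fun i => (outDegree G i : ℂ)) -
    Matrix.of (fun i j => if G.Adj i j then (1 : ℂ) else 0)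

/-- The restricted numerical range: all `x^* L x` with `x` a complex unit vector orthogonal to
the all-ones vector. -/
def restrictedNumericalRange {n : ℕ} (L : Matrix (Fin n) (Fin n) ℂ) : Set ℂ :=
  {z | ∃ x : Fin n → ℂ, ∑ i, x i = 0 ∧ star x ⬝ᵥ x = 1 ∧ z = star x ⬝ᵥ (L *ᵥ x)}

/-- The algebraic connectivity, the infimum of the real parts of the restricted numerical range
of the Laplacian. -/
noncomputable def alpha {n : ℕ} (G : Digraph (Fin n)) : ℝ :=
  sInf (Complex.re '' restrictedNumericalRange (laplacian G))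

/-- The supremum of the real parts of the restricted numerical range of the Laplacian. -/
noncomputable def beta {n : ℕ} (G : Digraph (Fin n)) : ℝ :=
  sSup (Complex.re '' restrictedNumericalRange (laplacian G))

/-- The Laplacian spread. -/
noncomputable def spread {n : ℕ} (G : Digraph (Fin n)) : ℝ := beta G - alpha G

/-! ### The real Laplacian and its quadratic form -/

/-- arc indicator -/
noncomputable def arc {n : ℕ} (G : Digraph (Fin n)) (i j : Fin n) : ℤ :=
  if G.Adj i j then 1 else 0

/-- The real Laplacian. -/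
noncomputable def rlap {n : ℕ} (G : Digraph (Fin n)) : Matrix (Fin n) (Fin n) ℝ :=
  Matrix.of (fun i j => (if i = j then (outDegree G i : ℝ) else 0) - (arc G i j : ℝ))

lemma laplacian_apply {n : ℕ} (G : Digraph (Fin n)) (i j : Fin n) :
    laplacian G i j = ((rlap G i j : ℝ) : ℂ) := by
  by_cases h : i = j
  · subst h
    by_cases h' : G.Adj i i <;> simp [laplacian, rlap, arc, h']
  · by_cases h' : G.Adj i j <;> simp [laplacian, rlap, arc, h, h']

/-- The quadratic form of the real Laplacian. -/
noncomputable def qf {n : ℕ} (G : Digraph (Fin n)) (y : Fin n → ℝ) : ℝ :=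
  ∑ i, ∑ j, y i * rlap G i j * y j

lemma re_form {n : ℕ} (G : Digraph (Fin n)) (x : Fin n → ℂ) :
    (star x ⬝ᵥ (laplacian G *ᵥ x)).re
      = qf G (fun i => (x i).re) + qf G (fun i => (x i).im) := by
  simp only [dotProduct, mulVec, Pi.star_apply, qf, Complex.re_sum, Finset.mul_sum,
    ← Finset.sum_add_distrib]
  refine Finset.sum_congr rfl fun i _ => Finset.sum_congr rfl fun j _ => ?_
  rw [laplacian_apply]
  simp [Complex.mul_re, Complex.mul_im]
  ring

lemma norm_form {n : ℕ} (x : Fin n → ℂ) :
    (star x ⬝ᵥ x) = ((∑ i, ((x i).re ^ 2 + (x i).im ^ 2) : ℝ) : ℂ) := by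
  simp only [dotProduct, Pi.star_apply]
  push_cast
  refine Finset.sum_congr rfl fun i _ => ?_
  apply Complex.ext
  · simp [Complex.mul_re, ← Complex.ofReal_pow]; ring
  · simp [Complex.mul_im, ← Complex.ofReal_pow]; ring

/-- The set of real parts. -/
noncomputable def reSet {n : ℕ} (G : Digraph (Fin n)) : Set ℝ :=
  Complex.re '' restrictedNumericalRange (laplacian G)

lemma mem_reSet_iff {n : ℕ} (G : Digraph (Fin n)) (r : ℝ) :
    r ∈ reSet G ↔ ∃ x : Fin n → ℂ, ∑ i, x i = 0 ∧
      ∑ i, ((x i).re ^ 2 + (x i).im ^ 2) = 1 ∧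
      r = qf G (fun i => (x i).re) + qf G (fun i => (x i).im) := by
  constructor
  · rintro ⟨z, ⟨x, h1, h2, rfl⟩, rfl⟩
    refine ⟨x, h1, ?_, re_form G x⟩
    rw [norm_form] at h2
    exact_mod_cast h2
  · rintro ⟨x, h1, h2, rfl⟩
    refine ⟨star x ⬝ᵥ (laplacian G *ᵥ x), ⟨x, h1, ?_, rfl⟩, re_form G x⟩
    rw [norm_form, h2]
    simp

lemma reSet_bdd {n : ℕ} (G : Digraph (Fin n)) :
    ∃ C : ℝ, ∀ r ∈ reSet G, |r| ≤ C := by
  refine ⟨2 * ∑ i, ∑ j, |rlap G i j|, ?_⟩
  intro r hr
  rw [mem_reSet_iff] at hr
  obtain ⟨x, -, h2, rfl⟩ := hr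
  have key : ∀ y : Fin n → ℝ, (∀ i, |y i| ≤ 1) → |qf G y| ≤ ∑ i, ∑ j, |rlap G i j| := by
    intro y hy
    refine (Finset.abs_sum_le_sum_abs _ _).trans (Finset.sum_le_sum fun i _ => ?_)
    refine (Finset.abs_sum_le_sum_abs _ _).trans (Finset.sum_le_sum fun j _ => ?_)
    rw [abs_mul, abs_mul]
    have h1 := hy i
    have h3 := hy j
    have h4 := abs_nonneg (rlap G i j)
    have h5 := abs_nonneg (y i)
    have h6 := abs_nonneg (y j)
    calc |y i| * |rlap G i j| * |y j| ≤ 1 * |rlap G i j| * 1 := by gcongr
      _ = |rlap G i j| := by ring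
  have hle : ∀ i, (x i).re ^ 2 + (x i).im ^ 2 ≤ 1 := by
    intro i
    rw [← h2]
    exact Finset.single_le_sum (f := fun i => (x i).re ^ 2 + (x i).im ^ 2)
      (fun j _ => by positivity) (Finset.mem_univ i)
  have h3 : ∀ i, |(x i).re| ≤ 1 := fun i => by
    rw [← sq_le_one_iff_abs_le_one]; nlinarith [hle i, sq_nonneg (x i).im]
  have h4 : ∀ i, |(x i).im| ≤ 1 := fun i => by
    rw [← sq_le_one_iff_abs_le_one]; nlinarith [hle i, sq_nonneg (x i).re]
  calc |qf G (fun i => (x i).re) + qf G (fun i => (x i).im)|
      ≤ |qf G (fun i => (x i).re)| + |qf G (fun i => (x i).im)| := abs_add_le _ _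
    _ ≤ ∑ i, ∑ j, |rlap G i j| + ∑ i, ∑ j, |rlap G i j| :=
        add_le_add (key _ h3) (key _ h4)
    _ = _ := by ring

lemma sub_le_spread {n : ℕ} (G : Digraph (Fin n)) {r s : ℝ} (hr : r ∈ reSet G)
    (hs : s ∈ reSet G) : r - s ≤ spread G := by
  obtain ⟨C, hC⟩ := reSet_bdd G
  have h1 : BddAbove (reSet G) := ⟨C, fun t ht => (abs_le.1 (hC t ht)).2⟩
  have h2 : BddBelow (reSet G) := ⟨-C, fun t ht => (abs_le.1 (hC t ht)).1⟩
  have h3 : r ≤ sSup (reSet G) := le_csSup h1 hr
  have h4 : sInf (reSet G) ≤ s := csInf_le h2 hs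
  have : spread G = sSup (reSet G) - sInf (reSet G) := rfl
  rw [this]; linarith

lemma qf_smul {n : ℕ} (G : Digraph (Fin n)) (c : ℝ) (y : Fin n → ℝ) :
    qf G (fun i => c * y i) = c ^ 2 * qf G y := by
  simp only [qf, Finset.mul_sum]
  refine Finset.sum_congr rfl fun i _ => Finset.sum_congr rfl fun j _ => ?_
  ring

/-- Rayleigh quotients of real zero-sum vectors belong to the set of real parts. -/
lemma rayleigh_mem {n : ℕ} (G : Digraph (Fin n)) (y : Fin n → ℝ) (N : ℝ) (hN : 0 < N)
    (h0 : ∑ i, y i = 0) (h1 : ∑ i, y i ^ 2 = N) : qf G y / N ∈ reSet G := by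
  rw [mem_reSet_iff]
  have hs : (Real.sqrt N)⁻¹ ^ 2 = N⁻¹ := by
    rw [inv_pow, Real.sq_sqrt hN.le]
  refine ⟨fun i => (((Real.sqrt N)⁻¹ * y i : ℝ) : ℂ), ?_, ?_, ?_⟩
  · rw [← Complex.ofReal_sum, ← Finset.mul_sum, h0]; simp
  · simp only [Complex.ofReal_re, Complex.ofReal_im]
    have : ∑ i, (((Real.sqrt N)⁻¹ * y i) ^ 2 + (0:ℝ) ^ 2) = (Real.sqrt N)⁻¹ ^ 2 * ∑ i, y i ^ 2 := by
      rw [Finset.mul_sum]
      refine Finset.sum_congr rfl fun i _ => ?_
      ring
    rw [this, h1, hs, inv_mul_cancel₀ hN.ne']
  · simp only [Complex.ofReal_re, Complex.ofReal_im]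
    rw [qf_smul, hs]
    have : qf G (fun _ => (0:ℝ)) = 0 := by simp [qf]
    rw [this]; field_simp; ring

/-! ### Row and column sums -/

lemma sum_arc_row {n : ℕ} (G : Digraph (Fin n)) (i : Fin n) :
    ∑ j, arc G i j = (outDegree G i : ℤ) := by
  simp [arc, outDegree]

lemma sum_arc_col {n : ℕ} (G : Digraph (Fin n)) (i : Fin n) :
    ∑ j, arc G j i = (inDegree G i : ℤ) := by
  simp [arc, inDegree]

lemma rlap_row {n : ℕ} (G : Digraph (Fin n)) (i : Fin n) : ∑ j, rlap G i j = 0 := by
  simp only [rlap, Matrix.of_apply, Finset.sum_sub_distrib]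
  have := sum_arc_row G i
  have h2 : ∑ j, (arc G i j : ℝ) = (outDegree G i : ℝ) := by exact_mod_cast this
  rw [h2]; simp

lemma rlap_col {n : ℕ} (G : Digraph (Fin n)) (hG : Balanced G) (j : Fin n) :
    ∑ i, rlap G i j = 0 := by
  simp only [rlap, Matrix.of_apply, Finset.sum_sub_distrib]
  have := sum_arc_col G j
  have h2 : ∑ i, (arc G i j : ℝ) = (inDegree G j : ℝ) := by exact_mod_cast this
  rw [h2, hG j]; simp

/-! ### First test vectors: `n e_k - 1` -/

lemma qf_vertex {n : ℕ} (G : Digraph (Fin n)) (hl : Loopless G) (hG : Balanced G) (k : Fin n) :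
    qf G (fun i => (if i = k then (n : ℝ) else 0) - 1) = (n : ℝ) ^ 2 * outDegree G k := by
  have e1 : ∀ i j : Fin n, ((if i = k then (n : ℝ) else 0) - 1) * rlap G i j *
      ((if j = k then (n : ℝ) else 0) - 1)
      = (if i = k then (n : ℝ) else 0) * rlap G i j * (if j = k then (n : ℝ) else 0)
        - (if i = k then (n : ℝ) else 0) * rlap G i j
        - rlap G i j * (if j = k then (n : ℝ) else 0) + rlap G i j := by
    intro i j; ring
  unfold qf
  simp only [e1, Finset.sum_add_distrib, Finset.sum_sub_distrib]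
  have a1 : ∑ i, ∑ j, (if i = k then (n : ℝ) else 0) * rlap G i j = 0 := by
    apply Finset.sum_eq_zero; intro i _
    rw [← Finset.mul_sum, rlap_row, mul_zero]
  have a2 : ∑ i, ∑ j, rlap G i j * (if j = k then (n : ℝ) else 0) = 0 := by
    rw [Finset.sum_comm]
    apply Finset.sum_eq_zero; intro i _
    rw [← Finset.sum_mul, rlap_col G hG, zero_mul]
  have a3 : ∑ i, ∑ j, rlap G i j = 0 := by
    apply Finset.sum_eq_zero; intro i _
    exact rlap_row G i
  have a4 : ∑ i, ∑ j, (if i = k then (n : ℝ) else 0) * rlap G i j * (if j = k then (n : ℝ) else 0)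
      = (n : ℝ) ^ 2 * outDegree G k := by
    have hk : rlap G k k = outDegree G k := by
      simp [rlap, arc, hl k]
    simp [hk]
    ring
  rw [a1, a2, a3, a4]; ring

lemma vertex_mem {n : ℕ} (hn : 2 ≤ n) (G : Digraph (Fin n)) (hl : Loopless G) (hG : Balanced G)
    (k : Fin n) : ((n : ℝ) ^ 2 * outDegree G k) / ((n : ℝ) * ((n : ℝ) - 1)) ∈ reSet G := by
  have hn' : (2 : ℝ) ≤ n := by exact_mod_cast hn
  rw [← qf_vertex G hl hG k]
  apply rayleigh_mem
  · have : 0 < (n : ℝ) - 1 := by linarith
    positivity
  · simp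
  · have : ∀ i : Fin n, ((if i = k then (n : ℝ) else 0) - 1) ^ 2
        = (if i = k then (n : ℝ) ^ 2 - 2 * n else 0) + 1 := by
      intro i
      by_cases h : i = k
      · simp [h]; ring
      · simp [h]
    simp only [this, Finset.sum_add_distrib]
    simp
    ring

/-! ### Second test vectors, supported on four vertices -/

lemma four_diff {n : ℕ} (G : Digraph (Fin n)) (a b c d : Fin n) (hab : a ≠ b) (hac : a ≠ c)
    (hbd : b ≠ d) (hcd : c ≠ d) :
    qf G (fun i => (if i = a then 1 else 0) - (if i = b then 1 else 0)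
        + (if i = c then 1 else 0) - (if i = d then 1 else 0))
    - qf G (fun i => (if i = a then 1 else 0) + (if i = b then 1 else 0)
        - (if i = c then 1 else 0) - (if i = d then 1 else 0))
    = 2 * ((arc G a b + arc G b a) + (arc G c d + arc G d c)
        - (arc G a c + arc G c a) - (arc G b d + arc G d b) : ℤ) := by
  unfold qf
  rw [← Finset.sum_sub_distrib]
  simp only [← Finset.sum_sub_distrib]
  have e : ∀ i j : Fin n,
      ((if i = a then (1:ℝ) else 0) - (if i = b then 1 else 0)
        + (if i = c then 1 else 0) - (if i = d then 1 else 0)) * rlap G i j *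
      ((if j = a then (1:ℝ) else 0) - (if j = b then 1 else 0)
        + (if j = c then 1 else 0) - (if j = d then 1 else 0)) -
      ((if i = a then (1:ℝ) else 0) + (if i = b then 1 else 0)
        - (if i = c then 1 else 0) - (if i = d then 1 else 0)) * rlap G i j *
      ((if j = a then (1:ℝ) else 0) + (if j = b then 1 else 0)
        - (if j = c then 1 else 0) - (if j = d then 1 else 0))
      = 2 * ((if i = a then (1:ℝ) else 0) * rlap G i j * (if j = c then 1 else 0))
        + 2 * ((if i = c then (1:ℝ) else 0) * rlap G i j * (if j = a then 1 else 0))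
        + 2 * ((if i = b then (1:ℝ) else 0) * rlap G i j * (if j = d then 1 else 0))
        + 2 * ((if i = d then (1:ℝ) else 0) * rlap G i j * (if j = b then 1 else 0))
        - 2 * ((if i = a then (1:ℝ) else 0) * rlap G i j * (if j = b then 1 else 0))
        - 2 * ((if i = b then (1:ℝ) else 0) * rlap G i j * (if j = a then 1 else 0))
        - 2 * ((if i = c then (1:ℝ) else 0) * rlap G i j * (if j = d then 1 else 0))
        - 2 * ((if i = d then (1:ℝ) else 0) * rlap G i j * (if j = c then 1 else 0)) := by
    intro i j; ring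
  simp only [e, Finset.sum_add_distrib, Finset.sum_sub_distrib, ← Finset.mul_sum]
  have s : ∀ p q : Fin n, p ≠ q → ∑ i, ∑ j, (if i = p then (1:ℝ) else 0) * rlap G i j *
      (if j = q then 1 else 0) = - arc G p q := by
    intro p q hpq
    have : rlap G p q = - arc G p q := by simp [rlap, hpq]
    simp [this]
  rw [s a c hac, s c a hac.symm, s b d hbd, s d b hbd.symm, s a b hab, s b a hab.symm,
    s c d hcd, s d c hcd.symm]
  push_cast
  ring

lemma four_spread {n : ℕ} (G : Digraph (Fin n)) (a b c d : Fin n) (hab : a ≠ b) (hac : a ≠ c)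
    (had : a ≠ d) (hbc : b ≠ c) (hbd : b ≠ d) (hcd : c ≠ d)
    (h : 2 ≤ (arc G a b + arc G b a) + (arc G c d + arc G d c)
        - (arc G a c + arc G c a) - (arc G b d + arc G d b)) : 1 ≤ spread G := by
  have hd := four_diff G a b c d hab hac hbd hcd
  have h1 := rayleigh_mem G (fun i => (if i = a then 1 else 0) - (if i = b then 1 else 0)
        + (if i = c then 1 else 0) - (if i = d then 1 else 0)) 4 (by norm_num)
        (by simp [Finset.sum_add_distrib, Finset.sum_sub_distrib]) (by
          have : ∀ i : Fin n, ((if i = a then (1:ℝ) else 0) - (if i = b then 1 else 0)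
            + (if i = c then 1 else 0) - (if i = d then 1 else 0)) ^ 2
            = (if i = a then (1:ℝ) else 0) + (if i = b then 1 else 0)
            + (if i = c then 1 else 0) + (if i = d then 1 else 0) := by
            intro i
            by_cases ha : i = a
            · subst ha; simp [hab, hac, had]
            by_cases hb : i = b
            · subst hb; simp [ha, hbc, hbd]
            by_cases hc : i = c
            · subst hc; simp [ha, hb, hcd]
            by_cases hd : i = d
            · subst hd; simp [ha, hb, hc]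
            simp [ha, hb, hc, hd]
          simp only [this, Finset.sum_add_distrib]
          simp; norm_num)
  have h2 := rayleigh_mem G (fun i => (if i = a then 1 else 0) + (if i = b then 1 else 0)
        - (if i = c then 1 else 0) - (if i = d then 1 else 0)) 4 (by norm_num)
        (by simp [Finset.sum_add_distrib, Finset.sum_sub_distrib]) (by
          have : ∀ i : Fin n, ((if i = a then (1:ℝ) else 0) + (if i = b then 1 else 0)
            - (if i = c then 1 else 0) - (if i = d then 1 else 0)) ^ 2
            = (if i = a then (1:ℝ) else 0) + (if i = b then 1 else 0)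
            + (if i = c then 1 else 0) + (if i = d then 1 else 0) := by
            intro i
            by_cases ha : i = a
            · subst ha; simp [hab, hac, had]
            by_cases hb : i = b
            · subst hb; simp [ha, hbc, hbd]
            by_cases hc : i = c
            · subst hc; simp [ha, hb, hcd]
            by_cases hd : i = d
            · subst hd; simp [ha, hb, hc]
            simp [ha, hb, hc, hd]
          simp only [this, Finset.sum_add_distrib]
          simp; norm_num)
  have h3 := sub_le_spread G h1 h2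
  have h4 : (2 : ℝ) ≤ ((arc G a b + arc G b a) + (arc G c d + arc G d c)
        - (arc G a c + arc G c a) - (arc G b d + arc G d b) : ℤ) := by exact_mod_cast h
  linarith

/-- If all out-degrees agree and the symmetrised weights are not constant on pairs sharing a
vertex, then the spread is at least one. -/
lemma spread_of_nonconst {n : ℕ} (G : Digraph (Fin n)) (hl : Loopless G) (hG : Balanced G)
    (hd : ∀ i j, outDegree G i = outDegree G j) (p q x : Fin n) (hpq : p ≠ q) (hpx : p ≠ x)
    (hqx : q ≠ x) (hne : arc G p x + arc G x p ≠ arc G q x + arc G x q) : 1 ≤ spread G := by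
  -- the sum over all z of w_pz - w_qz vanishes
  have hsum : ∑ z, ((arc G p z + arc G z p) - (arc G q z + arc G z q)) = 0 := by
    rw [Finset.sum_sub_distrib, Finset.sum_add_distrib, Finset.sum_add_distrib,
      sum_arc_row, sum_arc_col, sum_arc_row, sum_arc_col, hG p, hG q, hd p q]
    ring
  have hpp : arc G p p = 0 := by simp [arc, hl p]
  have hqq : arc G q q = 0 := by simp [arc, hl q]
  set f : Fin n → ℤ := fun z => (arc G p z + arc G z p) - (arc G q z + arc G z q) with hf
  have hfpq : f p + f q = 0 := by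
    simp only [hf, hpp, hqq]; ring
  have hsum2 : ∑ z ∈ (Finset.univ.erase p).erase q, f z = 0 := by
    have e1 : ∑ z, f z = f p + ∑ z ∈ Finset.univ.erase p, f z :=
      (Finset.add_sum_erase _ _ (Finset.mem_univ p)).symm
    have e2 : ∑ z ∈ Finset.univ.erase p, f z = f q + ∑ z ∈ (Finset.univ.erase p).erase q, f z :=
      (Finset.add_sum_erase _ _ (by simp [hpq.symm])).symm
    have e3 : ∑ z, f z = 0 := hsum
    linarith
  have hfx : f x ≠ 0 := by
    simp only [hf]; intro h; apply hne; linarith
  have hxmem : x ∈ (Finset.univ.erase p).erase q := by simp [hpx.symm, hqx.symm]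
  have hpos : ∃ z ∈ (Finset.univ.erase p).erase q, 0 < f z :=
    Finset.exists_pos_of_sum_zero_of_exists_nonzero f hsum2 ⟨x, hxmem, hfx⟩
  have hneg : ∃ z ∈ (Finset.univ.erase p).erase q, f z < 0 := by
    have := Finset.exists_pos_of_sum_zero_of_exists_nonzero (fun z => - f z)
      (by rw [Finset.sum_neg_distrib, hsum2, neg_zero]) ⟨x, hxmem, by simpa using hfx⟩
    obtain ⟨z, hz, h⟩ := this
    exact ⟨z, hz, by linarith⟩
  obtain ⟨u, hu, hfu⟩ := hpos
  obtain ⟨v, hv, hfv⟩ := hneg
  simp only [Finset.mem_erase, Finset.mem_univ, and_true] at hu hv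
  have huv : u ≠ v := by rintro rfl; linarith
  apply four_spread G p u v q hu.2.symm hv.2.symm hpq huv hu.1 hv.1
  simp only [hf] at hfu hfv
  linarith

/-! ### The remaining case: constant symmetrised weights -/

lemma qf_symm {n : ℕ} (G : Digraph (Fin n)) (y : Fin n → ℝ) :
    2 * qf G y = ∑ i, ∑ j, y i * (rlap G i j + rlap G j i) * y j := by
  have h : qf G y = ∑ i, ∑ j, y i * rlap G j i * y j := by
    unfold qf
    rw [Finset.sum_comm]
    refine Finset.sum_congr rfl fun i _ => Finset.sum_congr rfl fun j _ => ?_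
    ring
  have : 2 * qf G y = qf G y + qf G y := by ring
  rw [this]
  nth_rw 2 [h]
  unfold qf
  rw [← Finset.sum_add_distrib]
  refine Finset.sum_congr rfl fun i _ => ?_
  rw [← Finset.sum_add_distrib]
  refine Finset.sum_congr rfl fun j _ => ?_
  ring

lemma qf_const {n : ℕ} (G : Digraph (Fin n)) (hl : Loopless G) (k w : ℤ)
    (hd : ∀ i, (outDegree G i : ℤ) = k) (hw : ∀ i j, i ≠ j → arc G i j + arc G j i = w)
    (y : Fin n → ℝ) (hy : ∑ i, y i = 0) :
    2 * qf G y = (2 * k + w) * ∑ i, y i ^ 2 := by
  rw [qf_symm]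
  have e : ∀ i j : Fin n, y i * (rlap G i j + rlap G j i) * y j
      = (if i = j then (2 * k + w) * y i ^ 2 else 0) - w * y i * y j := by
    intro i j
    by_cases h : i = j
    · subst h
      have h0 : rlap G i i = k := by
        have := hd i
        have h2 : (outDegree G i : ℝ) = (k : ℝ) := by exact_mod_cast this
        simp [rlap, arc, hl i, h2]
      rw [h0]; simp; ring
    · have h1 : rlap G i j = - arc G i j := by simp [rlap, h]
      have h2 : rlap G j i = - arc G j i := by simp [rlap, Ne.symm h]
      have h3 : ((arc G i j : ℝ) + arc G j i) = w := by exact_mod_cast hw i j h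
      rw [h1, h2]
      simp only [h, if_false]
      linear_combination (- y i * y j) * h3
  simp only [e, Finset.sum_sub_distrib]
  have e2 : ∑ i, ∑ j, (w : ℝ) * y i * y j = 0 := by
    apply Finset.sum_eq_zero; intro i _
    rw [← Finset.mul_sum, hy, mul_zero]
  rw [e2]
  simp [Finset.mul_sum]

lemma spread_zero {n : ℕ} (G : Digraph (Fin n)) (c : ℝ) (h : ∀ r ∈ reSet G, r = c) :
    spread G = 0 := by
  have hs : spread G = sSup (reSet G) - sInf (reSet G) := rfl
  rw [hs]
  rcases Set.eq_empty_or_nonempty (reSet G) with h0 | ⟨r, hr⟩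
  · rw [h0]; simp
  · have : reSet G = {c} := by
      ext t
      constructor
      · intro ht; exact h t ht
      · intro ht
        have ht' : t = c := ht
        rw [ht', ← h r hr]; exact hr
    rw [this]; simp

lemma main_dichotomy {n : ℕ} (hn : 2 ≤ n) (G : Digraph (Fin n)) (hl : Loopless G)
    (hG : Balanced G) : spread G = 0 ∨ 1 ≤ spread G := by
  have hn' : (2 : ℝ) ≤ n := by exact_mod_cast hn
  by_cases hd : ∀ i j, outDegree G i = outDegree G j
  · by_cases hx : ∃ p q x : Fin n, p ≠ q ∧ p ≠ x ∧ q ≠ x ∧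
        arc G p x + arc G x p ≠ arc G q x + arc G x q
    · obtain ⟨p, q, x, h1, h2, h3, h4⟩ := hx
      right
      exact spread_of_nonconst G hl hG hd p q x h1 h2 h3 h4
    · left
      push Not at hx
      -- the weights are constant
      let i0 : Fin n := ⟨0, by omega⟩
      let i1 : Fin n := ⟨1, by omega⟩
      have h01 : i0 ≠ i1 := by simp [i0, i1]
      set W : Fin n → Fin n → ℤ := fun i j => arc G i j + arc G j i with hW
      have Wsymm : ∀ i j, W i j = W j i := fun i j => by simp [hW, add_comm]
      have hx' : ∀ p q x, p ≠ q → p ≠ x → q ≠ x → W p x = W q x := hx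
      have hconst : ∀ i j, i ≠ j → W i j = W i0 i1 := by
        intro i j hij
        by_cases hi : i = i1
        · subst hi
          by_cases hj : j = i0
          · subst hj; exact Wsymm _ _
          · -- W i1 j = W j i1 = W i0 i1
            rw [Wsymm i1 j]
            exact hx' j i0 i1 hj (Ne.symm hij) h01
        · -- W i j = W i i1 = W i0 i1
          have s1 : W i j = W i i1 := by
            by_cases hj : j = i1
            · rw [hj]
            · rw [Wsymm i j, Wsymm i i1]
              exact hx' j i1 i hj (Ne.symm hij) (Ne.symm hi)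
          rw [s1]
          by_cases hi' : i = i0
          · rw [hi']
          · exact hx' i i0 i1 hi' hi h01
      apply spread_zero G ((2 * ((outDegree G i0 : ℤ) : ℝ) + (W i0 i1 : ℝ)) / 2)
      intro r hr
      rw [mem_reSet_iff] at hr
      obtain ⟨x, hx0, hx1, rfl⟩ := hr
      have hre : ∑ i, (x i).re = 0 := by
        have := congrArg Complex.re hx0
        simpa using this
      have him : ∑ i, (x i).im = 0 := by
        have := congrArg Complex.im hx0
        simpa using this
      have q1 := qf_const G hl (outDegree G i0 : ℤ) (W i0 i1)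
        (fun i => by rw [hd i i0]) hconst (fun i => (x i).re) hre
      have q2 := qf_const G hl (outDegree G i0 : ℤ) (W i0 i1)
        (fun i => by rw [hd i i0]) hconst (fun i => (x i).im) him
      rw [Finset.sum_add_distrib] at hx1
      linear_combination q1 / 2 + q2 / 2 +
        ((2 * ((outDegree G i0 : ℤ) : ℝ) + (W i0 i1 : ℝ)) / 2) * hx1
  · right
    push Not at hd
    obtain ⟨i, j, hij⟩ := hd
    have key : ∀ a b : Fin n, outDegree G b < outDegree G a → 1 ≤ spread G := by
      intro a b hab
      have h1 := sub_le_spread G (vertex_mem hn G hl hG a) (vertex_mem hn G hl hG b)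
      have h2 : (outDegree G b : ℝ) + 1 ≤ outDegree G a := by exact_mod_cast hab
      have h3 : 0 < (n : ℝ) - 1 := by linarith
      have h4 : (0 : ℝ) < n := by linarith
      have h5 : (1 : ℝ) ≤ ((n : ℝ) ^ 2 * outDegree G a) / ((n : ℝ) * ((n : ℝ) - 1))
          - ((n : ℝ) ^ 2 * outDegree G b) / ((n : ℝ) * ((n : ℝ) - 1)) := by
        rw [← sub_div, ← mul_sub, le_div_iff₀ (by positivity)]
        have h6 : (1 : ℝ) ≤ (outDegree G a : ℝ) - outDegree G b := by linarith
        nlinarith [mul_le_mul_of_nonneg_left h6 (by positivity : (0:ℝ) ≤ (n:ℝ)^2)]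
      linarith
    rcases Nat.lt_or_gt_of_ne hij with h | h
    · exact key j i h
    · exact key i j h

/-- There is no balanced digraph (loopless, of any order `n ≥ 2`) whose Laplacian spread lies
strictly between `0` and `1`. -/
theorem result : ¬ ∃ (n : ℕ) (G : Digraph (Fin n)), 2 ≤ n ∧ Loopless G ∧ Balanced G ∧
    0 < spread G ∧ spread G < 1 := by
  rintro ⟨n, G, hn, hl, hG, h0, h1⟩
  rcases main_dichotomy hn G hl hG with h | h
  · rw [h] at h0; exact lt_irrefl _ h0
  · exact absurd h1 (not_lt.2 h)

end Pool.Agent.Results.MP_6838a0_co.SpreadGap
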